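import Pool.Agent.REV.StmtsA2
import Pool.Agent.REV.Ifc

set_option autoImplicit false

namespace Pool.Agent.REV.H36

open Set MeasureTheory Pool.Agent.REV

/-- the profile made total: `r ↦ f (min |r| 1)` -/
noncomputable def tot (f : ℝ → ℝ) (r : ℝ) : ℝ := f (min |r| 1)

theorem tot_eq (f : ℝ → ℝ) {r : ℝ} (hr : r ∈ Icc (0 : ℝ) 1) : tot f r = f r := by
  unfold tot
  rw [abs_of_nonneg hr.1, min_eq_left hr.2]

theorem mem_mul {r c : ℝ} (hr : r ∈ Icc (0 : ℝ) 1) (hc : c ∈ Icc (0 : ℝ) 1) :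
    r * c ∈ Icc (0 : ℝ) 1 :=
  ⟨mul_nonneg hr.1 hc.1, by nlinarith [hr.1, hr.2, hc.1, hc.2]⟩

theorem RA_tot (n : ℕ) (f : ℝ → ℝ) {c : ℝ} (hc : c ∈ Icc (0 : ℝ) 1) :
    RA n (tot f) c = RA n f c := by
  unfold RA
  apply intervalIntegral.integral_congr
  intro r hr
  rw [uIcc_of_le zero_le_one] at hr
  simp only [tot_eq f (mem_mul hr hc)]

theorem RB_tot (n : ℕ) (f : ℝ → ℝ) {c : ℝ} (hc : c ∈ Icc (0 : ℝ) 1) :
    RB n (tot f) c = RB n f c := by
  unfold RB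
  apply intervalIntegral.integral_congr
  intro r hr
  rw [uIcc_of_le zero_le_one] at hr
  simp only [tot_eq f (mem_mul hr hc)]

theorem sqrt_mem {t : ℝ} (ht : t ∈ Icc (0 : ℝ) 1) : Real.sqrt (1 - t ^ 2) ∈ Icc (0 : ℝ) 1 :=
  ⟨Real.sqrt_nonneg _, Real.sqrt_le_one.2 (by nlinarith [sq_nonneg t])⟩

theorem TT_tot (n i : ℕ) (C1 C2 : ℝ) (f : ℝ → ℝ) {t : ℝ} (ht : t ∈ Icc (0 : ℝ) 1) :
    TT n i C1 C2 (tot f) t = TT n i C1 C2 f t := by
  unfold TT
  rw [RA_tot n f (sqrt_mem ht), RB_tot n f (sqrt_mem ht)]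

theorem a2 (hSVN : SvnStmt) : A2Stmt := by
  intro n i C1 C2 c hn hi hi2 hC1 hC2 hc
  obtain ⟨B, hB0, hB⟩ := hSVN n i C1 C2 (1 / c) c hn hi hi2 hC1 hC2.le (by positivity) hc
  refine ⟨7, B, hB0, ?_⟩
  intro F s hs hreg hmass hm1 hm2 hstep
  have hcls : ∀ k ≤ 7, Cls n (1 / c) c (tot (F k)) := by
    intro k hk
    obtain ⟨hme, hnn, C, hC⟩ := hreg k hk
    refine ⟨⟨hme, ?_, C, ?_⟩, ?_, ?_⟩
    · intro t ht
      rw [tot_eq _ ht]
      exact hnn t ht
    · intro t ht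
      rw [tot_eq _ ht]
      exact hC t ht
    · refine le_trans (le_of_eq ?_) (hmass k hk)
      apply intervalIntegral.integral_congr
      intro r hr
      rw [uIcc_of_le zero_le_one] at hr
      simp only [tot_eq _ hr]
    · refine (hm2 k hk).trans (le_of_eq ?_)
      unfold RA
      apply intervalIntegral.integral_congr
      intro r hr
      rw [uIcc_of_le zero_le_one] at hr
      simp only [mul_one, tot_eq _ hr]
      have h1 : 0 ≤ 1 - r ^ 2 := by nlinarith [hr.1, hr.2]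
      rw [← mul_assoc, Real.sqrt_eq_rpow]
      rcases h1.eq_or_lt with h0 | h0
      · rw [← h0, Real.zero_rpow (by norm_num : (1 / 2 : ℝ) ≠ 0), mul_zero, Real.zero_rpow]
        have : (4 : ℝ) ≤ n := by exact_mod_cast hn
        intro h
        linarith
      · rw [← Real.rpow_add h0]
        congr 2
        ring
  have hP := hB (fun k => s k) (fun k => tot (F k)) hcls (by
    intro k hk
    refine ⟨hc.le.trans (hs k (by omega)).1, ?_⟩
    intro t ht
    rw [TT_tot n i C1 C2 (F k) ht, tot_eq _ ht]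
    exact hstep k (by omega) t ht)
  have hEl : ∀ g : ℝ, ∀ t ∈ Icc (0 : ℝ) 1, El n g (tot (F 7)) t = El n g (F 7) t := by
    intro g t ht
    unfold El
    rw [tot_eq _ ht]
  refine ⟨?_, ?_⟩
  · intro x hx y hy hxy
    have := hP.1 hx hy hxy
    rwa [hEl _ x hx, hEl _ y hy] at this
  · intro x hx y hy hxy
    have := hP.2 hx hy hxy
    rwa [hEl _ x hx, hEl _ y hy] at this

end Pool.Agent.REV.H36
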