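import Pool.Agent.REV.StmtsV3

set_option autoImplicit false

/-! Squad REV, row VF3: the limit equation for `n = 3` (after row VEL of helper16). -/

namespace Pool.Agent.REV.H36

open Set MeasureTheory Filter
open scoped Topology

theorem vf3_tail (hVLM : Vm3Stmt) (hVTA : Vt3Stmt) (C σ R K : ℝ) (F : ℕ → ℕ → ℝ → ℝ)
    (s : ℕ → ℕ → ℝ) (y : ℝ → ℝ) (D : Set ℝ) (hC : 0 < C) (hσ : 0 < σ) (hR : 0 < R)
    (hLD : LD 3 C σ R F s y D) (hK : 0 ≤ K) (hyK : ∀ b : ℝ, 0 < b → y b ≤ K * b) :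
    ∃ K1 : ℝ, 0 ≤ K1 ∧ ∀ t : ℝ, 0 < t → R ^ 2 - y t ^ 2 ≤ K1 * min 1 ((t ^ 2)⁻¹) := by
  have hc3 : 0 < c3 3 C := by
    unfold c3
    apply div_pos hC
    norm_num
  have hσc : 0 < σ * c3 3 C := mul_pos hσ hc3
  have hRk : Tendsto (fun k => RA 3 (F k 0) 1) atTop (𝓝 R) := hLD.rlim 0 (by norm_num)
  have hsk : Tendsto (fun k => s k 0) atTop (𝓝 σ) := hLD.slim 0 (by norm_num)
  have hskc : ∀ k, 0 < s k 0 * c3 3 C := fun k => mul_pos (hLD.spos k 0) hc3
  have hskt : Tendsto (fun k => s k 0 * c3 3 C) atTop (𝓝 (σ * c3 3 C)) := hsk.mul_const _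
  set q : ℝ := (4 / 3 : ℝ) ^ (1 / 2 : ℝ) with hq
  have hq0 : 0 < q := by positivity
  -- one radius
  have key : ∀ B : ℝ, 0 < B → 2 / B ∉ D → 2 * B ∉ D →
      B * (R ^ 2 - y (2 * B) ^ 2) ≤ q * y (2 / B) / (σ * c3 3 C) := by
    intro B hB h1 h2
    have hk : ∀ k, B * (RA 3 (F k 0) 1 ^ 2 - yb 3 (F k 0) (2 * B) ^ 2) ≤
        q * yb 3 (F k 1) (2 / B) / (s k 0 * c3 3 C) := by
      intro k
      obtain ⟨hmono, -, hR0, hy, -⟩ := hVLM (F k 0) (hLD.prf k 0)
      obtain ⟨-, -, hi, hT⟩ := hVTA C (s k 0) (F k 0) (F k 1) hC (hLD.spos k 0) (hLD.prf k 0)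
        (hLD.prf k 1) (hLD.st k 0 (by norm_num)) B hB
      have hsub : Ioc B (2 * B) ⊆ Ioi B := Ioc_subset_Ioi_self
      have e0 : ∀ t : ℝ, 0 < t → ph 3 (F k 0) t = yb 3 (F k 0) t ^ 2 := fun t _ => rfl
      have e1 : ∫ t in Ioc B (2 * B), (RA 3 (F k 0) 1 ^ 2 - yb 3 (F k 0) (2 * B) ^ 2) ≤
          ∫ t in Ioc B (2 * B), (RA 3 (F k 0) 1 ^ 2 - ph 3 (F k 0) t) := by
        refine setIntegral_mono_on ?_ (hi.mono_set hsub) measurableSet_Ioc fun t ht => ?_
        · exact integrableOn_const (by simp)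
        · have ht0 : 0 < t := hB.trans ht.1
          rw [e0 t ht0]
          have h3 : yb 3 (F k 0) t ≤ yb 3 (F k 0) (2 * B) :=
            hmono (mem_Ici.2 ht0.le) (mem_Ici.2 (by positivity)) ht.2
          have h4 := pow_le_pow_left₀ (hy t ht0.le).1 h3 2
          linarith
      have e2 : ∫ t in Ioc B (2 * B), (RA 3 (F k 0) 1 ^ 2 - ph 3 (F k 0) t) ≤
          ∫ t in Ioi B, (RA 3 (F k 0) 1 ^ 2 - ph 3 (F k 0) t) := by
        refine setIntegral_mono_set hi ?_ hsub.eventuallyLE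
        refine (ae_restrict_iff' measurableSet_Ioi).2 (Eventually.of_forall fun t ht => ?_)
        have ht0 : 0 < t := hB.trans ht
        show 0 ≤ RA 3 (F k 0) 1 ^ 2 - ph 3 (F k 0) t
        rw [e0 t ht0]
        exact sub_nonneg.2 (pow_le_pow_left₀ (hy t ht0.le).1 (hy t ht0.le).2 2)
      rw [setIntegral_const] at e1
      have e3 : (volume.real (Ioc B (2 * B))) = B := by
        rw [Real.volume_real_Ioc_of_le (by linarith)]
        ring
      rw [e3, smul_eq_mul] at e1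
      rw [le_div_iff₀ (hskc k)]
      have e4 := (e1.trans e2)
      calc B * (RA 3 (F k 0) 1 ^ 2 - yb 3 (F k 0) (2 * B) ^ 2) * (s k 0 * c3 3 C)
          ≤ (∫ t in Ioi B, (RA 3 (F k 0) 1 ^ 2 - ph 3 (F k 0) t)) * (s k 0 * c3 3 C) :=
            mul_le_mul_of_nonneg_right e4 (hskc k).le
        _ = s k 0 * c3 3 C * ∫ t in Ioi B, (RA 3 (F k 0) 1 ^ 2 - ph 3 (F k 0) t) := mul_comm _ _
        _ ≤ _ := hT
    have l1 : Tendsto (fun k => B * (RA 3 (F k 0) 1 ^ 2 - yb 3 (F k 0) (2 * B) ^ 2)) atTop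
        (𝓝 (B * (R ^ 2 - y (2 * B) ^ 2))) :=
      ((hRk.pow 2).sub ((hLD.ylim 0 (by norm_num) (2 * B) (by positivity) h2).pow 2)).const_mul _
    have l2 : Tendsto (fun k => q * yb 3 (F k 1) (2 / B) / (s k 0 * c3 3 C)) atTop
        (𝓝 (q * y (2 / B) / (σ * c3 3 C))) :=
      ((hLD.ylim 1 (by norm_num) (2 / B) (by positivity) h1).const_mul q).div hskt hσc.ne'
    exact le_of_tendsto_of_tendsto' l1 l2 hk
  set A : ℝ := 32 * (q * K) / (σ * c3 3 C) with hA
  have hA0 : 0 ≤ A := by positivity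
  refine ⟨max (R ^ 2) A, le_max_of_le_right hA0, fun t ht => ?_⟩
  have hy0 := hLD.nonneg t ht
  have hb1 : R ^ 2 - y t ^ 2 ≤ R ^ 2 := by
    have := sq_nonneg (y t)
    linarith
  have hb2 : R ^ 2 - y t ^ 2 ≤ A * (t ^ 2)⁻¹ := by
    have hcnt : (((fun x : ℝ => 2 / x) '' D) ∪ ((fun x : ℝ => x / 2) '' D)).Countable :=
      (hLD.cnt.image _).union (hLD.cnt.image _)
    obtain ⟨B, hBD, hB1, hB2⟩ := (hcnt.dense_compl ℝ).exists_between
      (show t / 4 < t / 2 by linarith)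
    have hBp : 0 < B := by linarith
    have h1 : 2 / B ∉ D := by
      intro h
      apply hBD
      left
      refine ⟨2 / B, h, ?_⟩
      show 2 / (2 / B) = B
      field_simp
    have h2 : 2 * B ∉ D := by
      intro h
      apply hBD
      right
      refine ⟨2 * B, h, ?_⟩
      show 2 * B / 2 = B
      ring
    have h3 := key B hBp h1 h2
    have h4 : y (2 / B) ≤ K * (2 / B) := hyK _ (by positivity)
    have h5 : y (2 * B) ≤ y t :=
      hLD.mono (mem_Ioi.2 (by positivity)) (mem_Ioi.2 ht) (by linarith)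
    have h6 : y (2 * B) ^ 2 ≤ y t ^ 2 :=
      pow_le_pow_left₀ (hLD.nonneg _ (by positivity)) h5 2
    have h7 : q * y (2 / B) / (σ * c3 3 C) ≤ q * (K * (2 / B)) / (σ * c3 3 C) :=
      div_le_div_of_nonneg_right (mul_le_mul_of_nonneg_left h4 hq0.le) hσc.le
    have h8 : B * (R ^ 2 - y t ^ 2) ≤ q * (K * (2 / B)) / (σ * c3 3 C) := by
      refine le_trans ?_ (h3.trans h7)
      exact mul_le_mul_of_nonneg_left (by linarith) hBp.le
    have h9 : R ^ 2 - y t ^ 2 ≤ 2 * (q * K) / (σ * c3 3 C) * (B ^ 2)⁻¹ := by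
      have e1 : 2 * (q * K) / (σ * c3 3 C) * (B ^ 2)⁻¹ =
          B⁻¹ * (q * (K * (2 / B)) / (σ * c3 3 C)) := by
        field_simp
      rw [e1]
      have e2 : R ^ 2 - y t ^ 2 = B⁻¹ * (B * (R ^ 2 - y t ^ 2)) := by
        rw [← mul_assoc, inv_mul_cancel₀ hBp.ne', one_mul]
      rw [e2]
      exact mul_le_mul_of_nonneg_left h8 (by positivity)
    have h10 : (B ^ 2)⁻¹ ≤ 16 * (t ^ 2)⁻¹ := by
      have e1 : t ^ 2 ≤ 16 * B ^ 2 := by nlinarith
      rw [inv_le_comm₀ (by positivity) (by positivity), mul_inv, inv_inv]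
      linarith
    refine h9.trans ?_
    rw [hA]
    have e3 : 0 ≤ 2 * (q * K) / (σ * c3 3 C) := by positivity
    calc 2 * (q * K) / (σ * c3 3 C) * (B ^ 2)⁻¹
        ≤ 2 * (q * K) / (σ * c3 3 C) * (16 * (t ^ 2)⁻¹) := mul_le_mul_of_nonneg_left h10 e3
      _ = _ := by ring
  rcases le_total 1 ((t ^ 2)⁻¹) with h | h
  · rw [min_eq_left h, mul_one]
    exact hb1.trans (le_max_left _ _)
  · rw [min_eq_right h]
    exact hb2.trans (mul_le_mul_of_nonneg_right (le_max_right _ _) (by positivity))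

theorem vf3 (hVLM : Vm3Stmt) (hVPS : Vp3Stmt) (hVEO : Ve3Stmt) (hVTA : Vt3Stmt) : Vf3Stmt := by
  intro C σ R K F s y D hC hσ hR hLD hK hyK
  have hc3 : 0 < c3 3 C := by
    unfold c3
    apply div_pos hC
    norm_num
  have hσc : 0 < σ * c3 3 C := mul_pos hσ hc3
  constructor
  swap
  · exact vf3_tail hVLM hVTA C σ R K F s y D hC hσ hR hLD hK hyK
  intro b hb hbD
  set a : ℝ := 1 / b with hadef
  have ha : 0 < a := one_div_pos.2 hb
  -- `y ≤ R`
  have hyR : ∀ t, 0 < t → y t ≤ R := by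
    intro t ht
    refine ge_of_tendsto hLD.top ?_
    filter_upwards [eventually_ge_atTop t] with u hu
    exact hLD.mono ht (lt_of_lt_of_le ht hu) hu
  have hRk : Tendsto (fun k => RA 3 (F k 0) 1) atTop (𝓝 R) := hLD.rlim 0 (by norm_num)
  have hsk : Tendsto (fun k => s k 0) atTop (𝓝 σ) := hLD.slim 0 (by norm_num)
  set g : ℕ → ℝ → ℝ := fun k t => psd 3 b t * (RA 3 (F k 0) 1 ^ 2 - ph 3 (F k 0) t) with hg
  set G : ℝ → ℝ := fun t => psd 3 b t * (R ^ 2 - y t ^ 2) with hG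
  have hV := fun k => hVEO C (s k 0) (F k 0) (F k 1) hC (hLD.spos k 0) (hLD.prf k 0)
    (hLD.prf k 1) (hLD.st k 0 (by norm_num)) b hb
  have hgi : ∀ k, IntegrableOn (g k) (Ioi a) := fun k => (hV k).1
  have hI : ∀ k, yb 3 (F k 1) b = s k 0 * c3 3 C * ∫ t in Ioi a, g k t := fun k => (hV k).2
  have hyb : ∀ k t, 0 ≤ t → 0 ≤ yb 3 (F k 0) t ∧ yb 3 (F k 0) t ≤ RA 3 (F k 0) 1 := fun k t ht =>
    (hVLM (F k 0) (hLD.prf k 0)).2.2.2.1 t ht
  have hRA0 : ∀ k, 0 ≤ RA 3 (F k 0) 1 := fun k => (hVLM (F k 0) (hLD.prf k 0)).2.2.1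
  have hph : ∀ k t, 0 ≤ t → 0 ≤ ph 3 (F k 0) t ∧ ph 3 (F k 0) t ≤ RA 3 (F k 0) 1 ^ 2 := by
    intro k t ht
    obtain ⟨h1, h2⟩ := hyb k t ht
    exact ⟨pow_nonneg h1 _, pow_le_pow_left₀ h1 h2 _⟩
  obtain ⟨hps1, hps2, hps3⟩ := hVPS b hb
  have hpsd0 : ∀ t, a < t → 0 ≤ psd 3 b t := fun t ht => (hps1 t ht).2
  have haa : 2 / b = 2 * a := by rw [hadef]; ring
  have hpsd2 : ∀ t, 2 * a ≤ t → psd 3 b t ≤ 2 := fun t ht => hps2 t (haa ▸ ht)
  have hg0 : ∀ k t, a < t → 0 ≤ g k t := by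
    intro k t ht
    exact mul_nonneg (hpsd0 t ht) (sub_nonneg.2 (hph k t (ha.le.trans ht.le)).2)
  have hG0 : ∀ t, a < t → 0 ≤ G t := by
    intro t ht
    have ht0 : 0 < t := ha.trans ht
    exact mul_nonneg (hpsd0 t ht)
      (sub_nonneg.2 (pow_le_pow_left₀ (hLD.nonneg t ht0) (hyR t ht0) _))
  have hskc : ∀ k, 0 < s k 0 * c3 3 C := fun k => mul_pos (hLD.spos k 0) hc3
  have hskt : Tendsto (fun k => s k 0 * c3 3 C) atTop (𝓝 (σ * c3 3 C)) := hsk.mul_const _
  set L : ℝ := y b / (σ * c3 3 C) with hLdef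
  have hL : Tendsto (fun k => ∫ t in Ioi a, g k t) atTop (𝓝 L) := by
    have h1 : Tendsto (fun k => yb 3 (F k 1) b / (s k 0 * c3 3 C)) atTop (𝓝 L) :=
      (hLD.ylim 1 (by norm_num) b hb hbD).div hskt hσc.ne'
    refine h1.congr fun k => ?_
    rw [hI k, mul_div_assoc, mul_comm, div_mul_cancel₀ _ (hskc k).ne']
  have hL0 : 0 ≤ L := div_nonneg (hLD.nonneg b hb) hσc.le
  have hae : ∀ᵐ t ∂(volume.restrict (Ioi a)), Tendsto (fun k => g k t) atTop (𝓝 (G t)) := by
    filter_upwards [ae_restrict_mem measurableSet_Ioi,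
      ae_restrict_of_ae (hLD.cnt.ae_notMem volume)] with t ht htD
    have ht0 : 0 < t := ha.trans ht
    have h1 : Tendsto (fun k => ph 3 (F k 0) t) atTop (𝓝 (y t ^ 2)) :=
      (hLD.ylim 0 (by norm_num) t ht0 htD).pow 2
    exact ((hRk.pow 2).sub h1).const_mul (psd 3 b t)
  have hae0 : ∀ k, ∀ᵐ t ∂(volume.restrict (Ioi a)), 0 ≤ g k t := fun k => by
    filter_upwards [ae_restrict_mem measurableSet_Ioi] with t ht
    exact hg0 k t ht
  have haeG : ∀ᵐ t ∂(volume.restrict (Ioi a)), 0 ≤ G t := by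
    filter_upwards [ae_restrict_mem measurableSet_Ioi] with t ht
    exact hG0 t ht
  have hGm : AEStronglyMeasurable G (volume.restrict (Ioi a)) :=
    aestronglyMeasurable_of_tendsto_ae atTop (fun k => (hgi k).aestronglyMeasurable) hae
  -- Fatou
  have hF : ∫⁻ t in Ioi a, ENNReal.ofReal (G t) ≤ ENNReal.ofReal L := by
    have h1 : ∫⁻ t in Ioi a, ENNReal.ofReal (G t) =
        ∫⁻ t in Ioi a, liminf (fun k => ENNReal.ofReal (g k t)) atTop := by
      apply lintegral_congr_ae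
      filter_upwards [hae] with t ht
      exact ((ENNReal.continuous_ofReal.tendsto _).comp ht).liminf_eq.symm
    have h2 : ∫⁻ t in Ioi a, liminf (fun k => ENNReal.ofReal (g k t)) atTop ≤
        liminf (fun k => ∫⁻ t in Ioi a, ENNReal.ofReal (g k t)) atTop :=
      lintegral_liminf_le' fun k => ((hgi k).aestronglyMeasurable.aemeasurable).ennreal_ofReal
    have h3 : (fun k => ∫⁻ t in Ioi a, ENNReal.ofReal (g k t)) =
        fun k => ENNReal.ofReal (∫ t in Ioi a, g k t) := by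
      funext k
      exact (ofReal_integral_eq_lintegral_ofReal (hgi k) (hae0 k)).symm
    rw [h1]
    refine h2.trans (le_of_eq ?_)
    rw [h3]
    exact ((ENNReal.continuous_ofReal.tendsto _).comp hL).liminf_eq
  have hGi : IntegrableOn G (Ioi a) :=
    ⟨hGm, (hasFiniteIntegral_iff_ofReal haeG).2 (hF.trans_lt ENNReal.ofReal_lt_top)⟩
  have hle1 : ∫ t in Ioi a, G t ≤ L := by
    rw [integral_eq_lintegral_of_nonneg_ae haeG hGm]
    have := ENNReal.toReal_mono ENNReal.ofReal_ne_top hF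
    rwa [ENNReal.toReal_ofReal hL0] at this
  -- tails
  set q : ℝ := (4 / 3 : ℝ) ^ (1 / 2 : ℝ) with hq
  have hq0 : 0 < q := by positivity
  have htail : ∀ B : ℝ, 2 * a < B → 2 / B ∉ D →
      L ≤ (∫ t in Ioi a, G t) + 2 * (q * y (2 / B) / (σ * c3 3 C)) := by
    intro B hB2 hBD
    have hB : a < B := by linarith
    have hB0 : 0 < B := ha.trans hB
    have hT := fun k => hVTA C (s k 0) (F k 0) (F k 1) hC (hLD.spos k 0) (hLD.prf k 0)
      (hLD.prf k 1) (hLD.st k 0 (by norm_num)) B hB0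
    have hsub1 : Ioc a B ⊆ Ioi a := Ioc_subset_Ioi_self
    have hsub2 : Ioi B ⊆ Ioi a := Ioi_subset_Ioi hB.le
    have h1 : ∀ k, ∫ t in Ioi a, g k t ≤
        (∫ t in Ioc a B, g k t) + 2 * (q * yb 3 (F k 1) (2 / B) / (s k 0 * c3 3 C)) := by
      intro k
      have e1 : ∫ t in Ioi a, g k t = (∫ t in Ioc a B, g k t) + ∫ t in Ioi B, g k t := by
        rw [← Ioc_union_Ioi_eq_Ioi hB.le]
        exact setIntegral_union (Ioc_disjoint_Ioi le_rfl) measurableSet_Ioi
          ((hgi k).mono_set hsub1) ((hgi k).mono_set hsub2)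
      have e2 : ∫ t in Ioi B, g k t ≤
          ∫ t in Ioi B, (2 : ℝ) * (RA 3 (F k 0) 1 ^ 2 - ph 3 (F k 0) t) := by
        apply setIntegral_mono_on ((hgi k).mono_set hsub2) ((hT k).2.2.1.const_mul _)
          measurableSet_Ioi
        intro t ht
        have hta : a < t := hB.trans ht
        exact mul_le_mul_of_nonneg_right (hpsd2 t (hB2.trans ht).le)
          (sub_nonneg.2 (hph k t (ha.le.trans hta.le)).2)
      rw [integral_const_mul] at e2
      have e3 := (hT k).2.2.2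
      have e4 : ∫ t in Ioi B, (RA 3 (F k 0) 1 ^ 2 - ph 3 (F k 0) t) ≤
          q * yb 3 (F k 1) (2 / B) / (s k 0 * c3 3 C) := by
        rw [le_div_iff₀ (hskc k), mul_comm]
        exact e3
      linarith
    have hpi : IntegrableOn (psd 3 b) (Ioc a B) := by
      have h := (hps3 B hB.le).1
      rwa [intervalIntegrable_iff_integrableOn_Ioc_of_le hB.le] at h
    have h2 : Tendsto (fun k => ∫ t in Ioc a B, g k t) atTop (𝓝 (∫ t in Ioc a B, G t)) := by
      apply tendsto_integral_filter_of_dominated_convergence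
        (fun t => psd 3 b t * (R + 1) ^ 2)
      · exact Eventually.of_forall fun k => ((hgi k).mono_set hsub1).aestronglyMeasurable
      · filter_upwards [hRk.eventually (gt_mem_nhds (show R < R + 1 by linarith))] with k hk
        filter_upwards [ae_restrict_mem measurableSet_Ioc] with t ht
        rw [Real.norm_eq_abs, abs_of_nonneg (hg0 k t ht.1)]
        have hp := hph k t (ha.le.trans ht.1.le)
        have h3 : RA 3 (F k 0) 1 ^ 2 ≤ (R + 1) ^ 2 :=
          pow_le_pow_left₀ (hRA0 k) hk.le _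
        exact mul_le_mul_of_nonneg_left (by linarith) (hpsd0 t ht.1)
      · exact hpi.mul_const _
      · exact ae_restrict_of_ae_restrict_of_subset hsub1 hae
    have h3 : Tendsto (fun k => (∫ t in Ioc a B, g k t) +
        2 * (q * yb 3 (F k 1) (2 / B) / (s k 0 * c3 3 C))) atTop
        (𝓝 ((∫ t in Ioc a B, G t) + 2 * (q * y (2 / B) / (σ * c3 3 C)))) := by
      refine h2.add (Tendsto.const_mul _ (Tendsto.div (Tendsto.const_mul _ ?_) hskt hσc.ne'))
      exact hLD.ylim 1 (by norm_num) (2 / B) (by positivity) hBD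
    have h4 := le_of_tendsto_of_tendsto' hL h3 h1
    have h5 : ∫ t in Ioc a B, G t ≤ ∫ t in Ioi a, G t :=
      setIntegral_mono_set hGi haeG (HasSubset.Subset.eventuallyLE hsub1)
    linarith
  have hle2 : L ≤ ∫ t in Ioi a, G t := by
    apply le_of_forall_pos_le_add
    intro ε hε
    set B0 : ℝ := max (2 * a) (2 * (q * (K * 2) / (σ * c3 3 C)) / ε) with hB0
    have hcnt : (((fun x : ℝ => 2 / x) '' D)).Countable := hLD.cnt.image _
    obtain ⟨B, hBD, hB1, -⟩ := (hcnt.dense_compl ℝ).exists_between (show B0 < B0 + 1 by linarith)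
    have hBa : 2 * a < B := (le_max_left _ _).trans_lt hB1
    have hBp : 0 < B := by linarith
    have hBD' : 2 / B ∉ D := by
      intro h
      apply hBD
      refine ⟨2 / B, h, ?_⟩
      show 2 / (2 / B) = B
      field_simp
    have h1 := htail B hBa hBD'
    have h2 : y (2 / B) ≤ K * (2 / B) := hyK _ (by positivity)
    have h3 : 2 * (q * (K * 2) / (σ * c3 3 C)) / ε < B := (le_max_right _ _).trans_lt hB1
    rw [div_lt_iff₀ hε] at h3
    have h4 : 2 * (q * y (2 / B) / (σ * c3 3 C)) ≤ 2 * (q * (K * 2) / (σ * c3 3 C)) / B := by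
      have e1 : q * y (2 / B) ≤ q * (K * (2 / B)) := mul_le_mul_of_nonneg_left h2 hq0.le
      have e2 : q * y (2 / B) / (σ * c3 3 C) ≤ q * (K * (2 / B)) / (σ * c3 3 C) :=
        div_le_div_of_nonneg_right e1 hσc.le
      have e3 := mul_le_mul_of_nonneg_left e2 (zero_le_two (α := ℝ))
      refine e3.trans (le_of_eq ?_)
      field_simp
    have h5 : 2 * (q * (K * 2) / (σ * c3 3 C)) / B ≤ ε := by
      rw [div_le_iff₀ hBp]
      linarith
    linarith
  refine ⟨hGi, ?_⟩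
  have : L = ∫ t in Ioi a, G t := le_antisymm hle2 hle1
  rw [← this, hLdef, mul_div_assoc', mul_comm, mul_div_assoc, div_self hσc.ne', mul_one]

end Pool.Agent.REV.H36
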