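import Pool.Agent.REV.StmtsV3

set_option autoImplicit false

/-!
# REV, row VKL: lower bound of the double step
-/

namespace Pool.Agent.REV.H36

open Pool.Agent.REV
open Set MeasureTheory Filter
open scoped Topology

/-- the kernel -/
noncomputable def vl3K (x : ℝ) : ℝ :=
  ∫ u in Ioo (0 : ℝ) (min 1 x), (1 : ℝ) * (1 - u ^ 2) ^ (-(1 / 2) : ℝ)

/-- integrability of the weight -/
def Vl3I : Prop :=
  IntervalIntegrable (fun u : ℝ => (1 - u ^ 2) ^ (-(1 / 2) : ℝ)) volume 0 1 ∧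
  J0 3 = (∫ u in (0 : ℝ)..1, (1 - u ^ 2) ^ (-(1 / 2) : ℝ))

theorem vl3_g {u : ℝ} (h0 : 0 < u) (h1 : u < 1) :
    0 ≤ (1 : ℝ) * (1 - u ^ 2) ^ (-(1 / 2) : ℝ) := by
  have h2 : 0 ≤ 1 - u ^ 2 := by nlinarith
  rw [one_mul]
  exact Real.rpow_nonneg h2 _

theorem vl3_gi (hI : Vl3I) (x : ℝ) :
    IntegrableOn (fun u : ℝ => (1 : ℝ) * (1 - u ^ 2) ^ (-(1 / 2) : ℝ))
      (Ioo (0 : ℝ) (min 1 x)) := by
  have h1 := (intervalIntegrable_iff_integrableOn_Ioc_of_le zero_le_one).1 hI.1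
  have h2 : Ioo (0 : ℝ) (min 1 x) ⊆ Ioc (0 : ℝ) 1 := fun u hu =>
    ⟨hu.1, (hu.2.trans_le (min_le_left _ _)).le⟩
  simp only [one_mul]
  exact h1.mono_set h2

theorem vl3_mono (hI : Vl3I) : Monotone vl3K := by
  intro x y hxy
  unfold vl3K
  refine setIntegral_mono_set (vl3_gi hI y) ?_ ?_
  · refine (ae_restrict_iff' measurableSet_Ioo).2 (Eventually.of_forall fun u hu => ?_)
    exact vl3_g hu.1 (hu.2.trans_le (min_le_left _ _))
  · exact (Ioo_subset_Ioo_right (min_le_min_left 1 hxy)).eventuallyLE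

theorem vl3_nonneg (x : ℝ) : 0 ≤ vl3K x := by
  unfold vl3K
  refine setIntegral_nonneg measurableSet_Ioo fun u hu => ?_
  exact vl3_g hu.1 (hu.2.trans_le (min_le_left _ _))

theorem vl3_J0 (hI : Vl3I) {x : ℝ} (hx : 1 ≤ x) : vl3K x = J0 3 := by
  rw [hI.2]
  unfold vl3K
  rw [min_eq_left hx, intervalIntegral.integral_of_le zero_le_one, integral_Ioc_eq_integral_Ioo]
  simp only [one_mul]

theorem vl3_le (hI : Vl3I) (x : ℝ) : vl3K x ≤ J0 3 := by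
  rw [← vl3_J0 hI (le_max_right x 1)]
  exact vl3_mono hI (le_max_left x 1)

/-- `∫ D K ≥ J0 ph b` -/
theorem vl3_low (hI : Vl3I) (f : ℝ → ℝ) (hf : Prf f) (vdr : Vd3Stmt) (vlm : Vm3Stmt)
    (b : ℝ) (hb : 0 < b) (D : ℝ → ℝ) (hD : ∀ β : ℝ, 0 < β → D β = dph 3 f β) :
    J0 3 * ph 3 f b ≤ ∫ β in Ioi (0 : ℝ), D β * vl3K (b / β) := by
  obtain ⟨hdr, -, -⟩ := vdr f hf
  obtain ⟨-, -, -, -, -, -, hint, htot, htail⟩ := vlm f hf
  have hDi : IntegrableOn D (Ioi 0) :=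
    hint.congr_fun (fun β hβ => (hD β hβ).symm) measurableSet_Ioi
  have hK : Measurable fun β : ℝ => vl3K (b / β) :=
    (vl3_mono hI).measurable.comp (measurable_const.div measurable_id)
  have hDK : IntegrableOn (fun β : ℝ => D β * vl3K (b / β)) (Ioi 0) := by
    refine Integrable.mono' (g := fun β => D β * J0 3) (hDi.mul_const _)
      (hDi.aestronglyMeasurable.mul hK.aestronglyMeasurable) ?_
    refine (ae_restrict_iff' measurableSet_Ioi).2 (Eventually.of_forall fun β hβ => ?_)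
    have h1 : 0 ≤ D β := by
      rw [hD β hβ]
      exact (hdr β hβ).2.2.2
    have h2 := vl3_nonneg (b / β)
    rw [Real.norm_eq_abs, abs_of_nonneg (mul_nonneg h1 h2)]
    exact mul_le_mul_of_nonneg_left (vl3_le hI _) h1
  have hsub : Ioc (0 : ℝ) b ⊆ Ioi 0 := fun x hx => hx.1
  have h1 : ∫ β in Ioc (0 : ℝ) b, D β * vl3K (b / β) ≤
      ∫ β in Ioi (0 : ℝ), D β * vl3K (b / β) := by
    refine setIntegral_mono_set hDK ?_ hsub.eventuallyLE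
    refine (ae_restrict_iff' measurableSet_Ioi).2 (Eventually.of_forall fun β hβ => ?_)
    refine mul_nonneg ?_ (vl3_nonneg _)
    rw [hD β hβ]
    exact (hdr β hβ).2.2.2
  refine le_trans (le_of_eq ?_) h1
  have h2 : ∫ β in Ioc (0 : ℝ) b, D β * vl3K (b / β) = ∫ β in Ioc (0 : ℝ) b, J0 3 * dph 3 f β := by
    refine setIntegral_congr_fun measurableSet_Ioc fun β hβ => ?_
    have h3 : 1 ≤ b / β := by
      rw [le_div_iff₀ hβ.1, one_mul]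
      exact hβ.2
    simp only [vl3_J0 hI h3, hD β hβ.1, mul_comm]
  rw [h2, integral_const_mul]
  congr 1
  have h4 := htail b hb.le
  have h5 : Ioc (0 : ℝ) b ∪ Ioi b = Ioi 0 := Ioc_union_Ioi_eq_Ioi hb.le
  have h6 : ∫ β in Ioi (0 : ℝ), dph 3 f β =
      (∫ β in Ioc (0 : ℝ) b, dph 3 f β) + ∫ β in Ioi b, dph 3 f β := by
    rw [← h5]
    exact setIntegral_union (Ioc_disjoint_Ioi le_rfl) measurableSet_Ioi
      (hint.mono_set hsub) (hint.mono_set (Ioi_subset_Ioi hb.le))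
  rw [htot, h4] at h6
  linarith

theorem vl3_c3 {C : ℝ} (hC : 0 < C) : 0 < c3 3 C := by
  unfold c3
  refine div_pos hC (mul_pos ?_ ?_) <;> norm_num

/-- the integral of `s dph` -/
theorem vl3_top {C σ : ℝ} (hC : 0 < C) (hσ : 0 < σ) (f f' : ℝ → ℝ)
    (hf : Prf f) (hf' : Prf f') (hst : StU 3 C σ f f')
    (vdr : Vd3Stmt) (vlm : Vm3Stmt) (vne : Vn3Stmt) (b₀ : ℝ) (hb₀ : 0 < b₀) :
    IntegrableOn (fun β : ℝ => β * dph 3 f β) (Ioi (1 / b₀)) ∧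
      σ * c3 3 C * ∫ β in Ioi (1 / b₀), β * dph 3 f β ≤ RA 3 f' 1 := by
  obtain ⟨hdr, hzc, hdc⟩ := vdr f hf
  obtain ⟨-, -, -, hyb, -⟩ := vlm f' hf'
  obtain ⟨hne, -⟩ := vne C σ f f' hC.le hσ.le hf hf' hst
  have hm : (0 : ℝ) ≤ 1 / 2 := by norm_num
  have hc : 0 < σ * c3 3 C := mul_pos hσ (vl3_c3 hC)
  have hi0 : 0 < 1 / b₀ := by positivity
  -- bounds for wb
  have hwb : ∀ b : ℝ, b₀ ≤ b → ∀ β : ℝ, 1 / b₀ < β →
      0 ≤ 1 - (b₀ / b) ^ 2 ∧ 1 - (b₀ / b) ^ 2 ≤ wb b β := by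
    intro b hb β hβ
    have hb0 : 0 < b := hb₀.trans_le hb
    have hβ0 : 0 < β := hi0.trans hβ
    have h1 : b₀ / b ≤ 1 := (div_le_one hb0).2 hb
    have h2 : 0 ≤ b₀ / b := by positivity
    refine ⟨by nlinarith, ?_⟩
    unfold wb
    have h3 : (b * β)⁻¹ ≤ b₀ / b := by
      rw [mul_inv, div_eq_mul_inv, mul_comm]
      refine mul_le_mul_of_nonneg_right ?_ (by positivity)
      rw [inv_le_comm₀ hβ0 hb₀]
      rw [one_div] at hβ
      exact hβ.le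
    have h4 : ((b * β) ^ 2)⁻¹ = ((b * β)⁻¹) ^ 2 := by rw [inv_pow]
    rw [h4]
    have h5 : ((b * β)⁻¹) ^ 2 ≤ (b₀ / b) ^ 2 := pow_le_pow_left₀ (by positivity) h3 2
    linarith
  have hdn : ∀ β : ℝ, 1 / b₀ < β → 0 ≤ β * dph 3 f β := fun β hβ =>
    mul_nonneg (hi0.trans hβ).le (hdr β (hi0.trans hβ)).2.2.2
  have hsub : ∀ b : ℝ, b₀ ≤ b → Ioi (1 / b₀) ⊆ Ioi (1 / b) := fun b hb =>
    Ioi_subset_Ioi (one_div_le_one_div_of_le hb₀ hb)
  -- integrability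
  have hint : IntegrableOn (fun β : ℝ => β * dph 3 f β) (Ioi (1 / b₀)) := by
    have hb : b₀ ≤ 2 * b₀ := by linarith
    have h1 := (hne (2 * b₀) (by linarith)).1.mono_set (hsub _ hb)
    have hq : (0 : ℝ) < (3 / 4 : ℝ) ^ (1 / 2 : ℝ) := Real.rpow_pos_of_pos (by norm_num) _
    refine Integrable.mono' (h1.const_mul ((3 / 4 : ℝ) ^ (1 / 2 : ℝ))⁻¹) ?_ ?_
    · refine ContinuousOn.aestronglyMeasurable ?_ measurableSet_Ioi
      exact continuousOn_id.mul (hdc.mono (Ioi_subset_Ioi hi0.le))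
    · refine (ae_restrict_iff' measurableSet_Ioi).2 (Eventually.of_forall fun β hβ => ?_)
      rw [Real.norm_eq_abs, abs_of_nonneg (hdn β hβ)]
      have h2 := (hwb (2 * b₀) hb β hβ).2
      have h3 : b₀ / (2 * b₀) = 1 / 2 := by field_simp
      rw [h3] at h2
      have h4 : (3 / 4 : ℝ) ^ (1 / 2 : ℝ) ≤ wb (2 * b₀) β ^ (1 / 2 : ℝ) :=
        Real.rpow_le_rpow (by norm_num) (by linarith) hm
      rw [inv_mul_eq_div, le_div_iff₀ hq, mul_comm]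
      exact mul_le_mul_of_nonneg_right h4 (hdn β hβ)
  refine ⟨hint, ?_⟩
  -- for every b
  have hev : ∀ b : ℝ, b₀ ≤ b → (1 - (b₀ / b) ^ 2) ^ (1 / 2 : ℝ) *
      (σ * c3 3 C * ∫ β in Ioi (1 / b₀), β * dph 3 f β) ≤ RA 3 f' 1 := by
    intro b hb
    have hb0 : 0 < b := hb₀.trans_le hb
    obtain ⟨hi, he, -⟩ := hne b hb0
    refine le_trans ?_ (hyb b hb0.le).2
    rw [he, mul_left_comm]
    refine mul_le_mul_of_nonneg_left ?_ hc.le
    have h1 : ∫ β in Ioi (1 / b₀), wb b β ^ (1 / 2 : ℝ) * (β * dph 3 f β) ≤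
        ∫ β in Ioi (1 / b), wb b β ^ (1 / 2 : ℝ) * (β * dph 3 f β) := by
      refine setIntegral_mono_set hi ?_ (hsub b hb).eventuallyLE
      refine (ae_restrict_iff' measurableSet_Ioi).2 (Eventually.of_forall fun β hβ => ?_)
      have hβ0 : 0 < β := lt_trans (by positivity) (mem_Ioi.1 hβ)
      refine mul_nonneg (Real.rpow_nonneg ?_ _) (mul_nonneg hβ0.le (hdr β hβ0).2.2.2)
      unfold wb
      have h2 : 1 ≤ b * β := by
        have := (div_lt_iff₀ hb0).1 (mem_Ioi.1 hβ)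
        linarith
      have h3 : ((b * β) ^ 2)⁻¹ ≤ 1 := inv_le_one_of_one_le₀ (one_le_pow₀ h2)
      linarith
    refine le_trans ?_ h1
    rw [← integral_const_mul]
    refine setIntegral_mono_on (hint.const_mul _) (hi.mono_set (hsub b hb)) measurableSet_Ioi ?_
    intro β hβ
    refine mul_le_mul_of_nonneg_right ?_ (hdn β hβ)
    obtain ⟨h2, h3⟩ := hwb b hb β hβ
    exact Real.rpow_le_rpow h2 h3 hm
  -- the limit
  have hlim : Tendsto (fun b : ℝ => (1 - (b₀ / b) ^ 2) ^ (1 / 2 : ℝ) *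
      (σ * c3 3 C * ∫ β in Ioi (1 / b₀), β * dph 3 f β)) atTop
      (𝓝 ((1 - (0 : ℝ) ^ 2) ^ (1 / 2 : ℝ) *
        (σ * c3 3 C * ∫ β in Ioi (1 / b₀), β * dph 3 f β))) := by
    refine Tendsto.mul_const _ ?_
    have h1 : Tendsto (fun b : ℝ => b₀ / b) atTop (𝓝 0) := tendsto_const_nhds.div_atTop tendsto_id
    have h2 : Tendsto (fun b : ℝ => 1 - (b₀ / b) ^ 2) atTop (𝓝 (1 - (0 : ℝ) ^ 2)) :=
      (h1.pow 2).const_sub 1
    exact h2.rpow_const (Or.inr hm)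
  have h1 : (1 - (0 : ℝ) ^ 2) ^ (1 / 2 : ℝ) *
        (σ * c3 3 C * ∫ β in Ioi (1 / b₀), β * dph 3 f β) =
      σ * c3 3 C * ∫ β in Ioi (1 / b₀), β * dph 3 f β := by
    have : (1 - (0 : ℝ) ^ 2) = 1 := by norm_num
    rw [this, Real.one_rpow, one_mul]
  rw [h1] at hlim
  exact le_of_tendsto hlim (eventually_ge_atTop b₀ |>.mono hev)

/-- **VKL** -/
theorem vl3 (vdr : Vd3Stmt) (vlm : Vm3Stmt) (vne : Vn3Stmt) (vs3 : Vs3Stmt) : Vl3Stmt := by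
  intro C σ0 σ1 f0 f1 f2 hC hσ0 hσ1 hf0 hf1 hf2 hs0 hs1 ε B hε hεB
  have hB : 0 < B := hε.trans_le hεB
  obtain ⟨hJ0, hJi, hJe, vsw⟩ := vs3
  have hI : Vl3I := ⟨hJi, hJe⟩
  have hc3 := vl3_c3 hC
  obtain ⟨hdr0, hz0, hd0⟩ := vdr f0 hf0
  obtain ⟨hdr1, hz1, hd1⟩ := vdr f1 hf1
  obtain ⟨-, -, -, -, -, -, hint0, -, -⟩ := vlm f0 hf0
  obtain ⟨hmono1, -, -, hy1, -⟩ := vlm f1 hf1
  obtain ⟨hne, -⟩ := vne C σ0 f0 f1 hC.le hσ0.le hf0 hf1 hs0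
  obtain ⟨htopi, htop⟩ := vl3_top hC hσ1 f1 f2 hf1 hf2 hs1 vdr vlm vne B hB
  -- the density
  classical
  set D : ℝ → ℝ := (Ioi (0 : ℝ)).piecewise (dph 3 f0) (fun _ => 0) with hDdef
  have hD : ∀ β : ℝ, 0 < β → D β = dph 3 f0 β := fun β hβ =>
    piecewise_eq_of_mem _ _ _ (mem_Ioi.2 hβ)
  have hDm : Measurable D := hd0.measurable_piecewise continuousOn_const measurableSet_Ioi
  have hDn : ∀ β : ℝ, 0 < β → 0 ≤ D β := fun β hβ => by
    rw [hD β hβ]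
    exact (hdr0 β hβ).2.2.2
  have hDi : IntegrableOn D (Ioi 0) :=
    hint0.congr_fun (fun β hβ => (hD β hβ).symm) measurableSet_Ioi
  -- the function Z
  have hzeq : ∀ s : ℝ, 0 < s → zb 3 f1 s = σ0 * c3 3 C *
      ∫ β in Ioi (1 / s), wb s β ^ (-(1 / 2) : ℝ) * (β⁻¹ * D β) := by
    intro s hs
    rw [(hne s hs).2.2.2]
    congr 1
    refine setIntegral_congr_fun measurableSet_Ioi fun β hβ => ?_
    have hβ0 : 0 < β := lt_trans (by positivity) (mem_Ioi.1 hβ)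
    simp only [hD β hβ0]
  have hZ : ∀ b : ℝ, 0 < b → IntegrableOn (fun s : ℝ => (s ^ 2)⁻¹ * zb 3 f1 s) (Ioi (1 / b)) ∧
      σ0 * c3 3 C * (J0 3 * ph 3 f0 b) ≤ ∫ s in Ioi (1 / b), (s ^ 2)⁻¹ * zb 3 f1 s := by
    intro b hb
    obtain ⟨hi, he⟩ := vsw b 1 D (fun _ => 1) hb hDm measurable_const hDn hDi
      (fun s _ => ⟨zero_le_one, le_rfl⟩)
    have hpos : 0 < 1 / b := by positivity
    have hcg : ∀ s ∈ Ioi (1 / b), (σ0 * c3 3 C) * ((s ^ 2)⁻¹ * 1 *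
        ∫ β in Ioi (1 / s), wb s β ^ (-(1 / 2) : ℝ) * (β⁻¹ * D β)) =
        (s ^ 2)⁻¹ * zb 3 f1 s := by
      intro s hs
      rw [hzeq s (hpos.trans hs)]
      ring
    refine ⟨IntegrableOn.congr_fun (hi.const_mul (σ0 * c3 3 C)) hcg measurableSet_Ioi, ?_⟩
    rw [← setIntegral_congr_fun measurableSet_Ioi hcg, integral_const_mul, he]
    refine mul_le_mul_of_nonneg_left ?_ (mul_pos hσ0 hc3).le
    exact vl3_low hI f0 hf0 vdr vlm b hb D hD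
  -- the integrand
  have hG : ∀ s : ℝ, 0 < s → σ1 * c3 3 C * (s * dph 3 f1 s) =
      σ1 * C * (yb 3 f1 s * ((s ^ 2)⁻¹ * zb 3 f1 s)) := by
    intro s hs
    unfold dph c3
    norm_num
    field_simp
    try ring
  have hi1 : 0 < 1 / B := by positivity
  have hi2 : 1 / B ≤ 1 / ε := one_div_le_one_div_of_le hε hεB
  have hie : 0 < 1 / ε := by positivity
  obtain ⟨hZBi, hZB⟩ := hZ B hB
  obtain ⟨hZei, hZe⟩ := hZ ε hε
  -- integrability of the product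
  have hYi : IntegrableOn (fun s : ℝ => yb 3 f1 s * ((s ^ 2)⁻¹ * zb 3 f1 s))
      (Ioi (1 / B)) := by
    refine IntegrableOn.congr_fun (htopi.const_mul (c3 3 C / C)) (fun s hs => ?_) measurableSet_Ioi
    have h := hG s (hi1.trans hs)
    have h3 : c3 3 C * (s * dph 3 f1 s) = C * (yb 3 f1 s * ((s ^ 2)⁻¹ * zb 3 f1 s)) := by
      have : σ1 * (c3 3 C * (s * dph 3 f1 s)) =
          σ1 * (C * (yb 3 f1 s * ((s ^ 2)⁻¹ * zb 3 f1 s))) := by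
        linarith
      exact mul_left_cancel₀ hσ1.ne' this
    show c3 3 C / C * (s * dph 3 f1 s) = _
    rw [div_mul_eq_mul_div, h3, mul_div_assoc, mul_comm C, div_mul_cancel₀ _ hC.ne']
  have hle : σ1 * C * ∫ s in Ioi (1 / B), yb 3 f1 s * ((s ^ 2)⁻¹ * zb 3 f1 s) ≤
      RA 3 f2 1 := by
    refine le_trans (le_of_eq ?_) htop
    rw [← integral_const_mul, ← integral_const_mul]
    exact setIntegral_congr_fun measurableSet_Ioi fun s hs => (hG s (hi1.trans hs)).symm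
  -- split
  have hun : Ioc (1 / B) (1 / ε) ∪ Ioi (1 / ε) = Ioi (1 / B) := Ioc_union_Ioi_eq_Ioi hi2
  have hdis : Disjoint (Ioc (1 / B) (1 / ε)) (Ioi (1 / ε)) := Ioc_disjoint_Ioi le_rfl
  have hs1' : Ioc (1 / B) (1 / ε) ⊆ Ioi (1 / B) := fun x hx => hx.1
  have hs2' : Ioi (1 / ε) ⊆ Ioi (1 / B) := Ioi_subset_Ioi hi2
  have hsp1 : ∫ s in Ioi (1 / B), yb 3 f1 s * ((s ^ 2)⁻¹ * zb 3 f1 s) =
      (∫ s in Ioc (1 / B) (1 / ε), yb 3 f1 s * ((s ^ 2)⁻¹ * zb 3 f1 s)) +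
        ∫ s in Ioi (1 / ε), yb 3 f1 s * ((s ^ 2)⁻¹ * zb 3 f1 s) := by
    rw [← hun]
    exact setIntegral_union hdis measurableSet_Ioi (hYi.mono_set hs1') (hYi.mono_set hs2')
  have hsp2 : ∫ s in Ioi (1 / B), (s ^ 2)⁻¹ * zb 3 f1 s =
      (∫ s in Ioc (1 / B) (1 / ε), (s ^ 2)⁻¹ * zb 3 f1 s) +
        ∫ s in Ioi (1 / ε), (s ^ 2)⁻¹ * zb 3 f1 s := by
    rw [← hun]
    exact setIntegral_union hdis measurableSet_Ioi (hZBi.mono_set hs1') hZei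
  have hlow : ∀ (a : ℝ) (S : Set ℝ), 0 < a → MeasurableSet S → S ⊆ Ioi a → S ⊆ Ioi (1 / B) →
      yb 3 f1 a * ∫ s in S, (s ^ 2)⁻¹ * zb 3 f1 s ≤
        ∫ s in S, yb 3 f1 s * ((s ^ 2)⁻¹ * zb 3 f1 s) := by
    intro a S ha hSm hSa hSB
    rw [← integral_const_mul]
    refine setIntegral_mono_on ((hZBi.mono_set hSB).const_mul _) (hYi.mono_set hSB) hSm ?_
    intro s hs
    have hs0 : 0 < s := ha.trans (hSa hs)
    have h1 : yb 3 f1 a ≤ yb 3 f1 s := hmono1 (mem_Ici.2 ha.le) (mem_Ici.2 hs0.le)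
      (le_of_lt (hSa hs))
    refine mul_le_mul_of_nonneg_right h1 ?_
    exact mul_nonneg (by positivity) (hdr1 s hs0).2.2.1
  have hl1 := hlow (1 / B) _ hi1 measurableSet_Ioc hs1' hs1'
  have hl2 := hlow (1 / ε) _ hie measurableSet_Ioi (fun x hx => hx) hs2'
  have hyB := (hy1 (1 / B) hi1.le).1
  have hye : yb 3 f1 (1 / B) ≤ yb 3 f1 (1 / ε) :=
    hmono1 (mem_Ici.2 hi1.le) (mem_Ici.2 hie.le) hi2
  set a := yb 3 f1 (1 / B) with ha
  set c := yb 3 f1 (1 / ε) with hcdef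
  set P := ∫ s in Ioc (1 / B) (1 / ε), (s ^ 2)⁻¹ * zb 3 f1 s with hP
  set Q := ∫ s in Ioi (1 / ε), (s ^ 2)⁻¹ * zb 3 f1 s with hQ
  have ha0 : 0 ≤ a := hyB
  rw [hsp2] at hZB
  have key : σ0 * c3 3 C * (J0 3 * (a * (ph 3 f0 B - ph 3 f0 ε) + c * ph 3 f0 ε)) ≤
      a * P + c * Q := by
    have h1 : a * (σ0 * c3 3 C * (J0 3 * ph 3 f0 B)) ≤ a * (P + Q) :=
      mul_le_mul_of_nonneg_left hZB ha0
    have h2 : (c - a) * (σ0 * c3 3 C * (J0 3 * ph 3 f0 ε)) ≤ (c - a) * Q :=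
      mul_le_mul_of_nonneg_left hZe (by linarith)
    nlinarith
  have hfin : σ1 * C * (σ0 * c3 3 C * (J0 3 * (a * (ph 3 f0 B - ph 3 f0 ε) + c * ph 3 f0 ε))) ≤
      RA 3 f2 1 := by
    refine le_trans ?_ hle
    refine mul_le_mul_of_nonneg_left ?_ (mul_pos hσ1 hC).le
    rw [hsp1]
    linarith
  refine le_trans (le_of_eq ?_) hfin
  ring

end Pool.Agent.REV.H36
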