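import Pool.Agent.Helper8_REV.CRC
import Pool.Agent.Helper27_REV.RC3
import Pool.Agent.Helper6_REV.YD3
import Pool.Agent.Helper77_REV.VD3
import Pool.Agent.Helper10_REV.VM3
import Pool.Agent.Helper28_REV.VN3
import Pool.Agent.Helper76_REV.VT3
import Pool.Agent.Helper89_REV.VP3
import Pool.Agent.Helper88_REV.VE3
import Pool.Agent.Helper47_REV.VS3
import Pool.Agent.Helper60_REV.VK3
import Pool.Agent.Helper49_REV.VQ3
import Pool.Agent.Helper36_REV.VL3
import Pool.Agent.Helper44_REV.VA3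
import Pool.Agent.Helper16_REV.VX3
import Pool.Agent.Helper43_REV.BS3
import Pool.Agent.Helper36_REV.VF3
import Pool.Agent.Helper66_REV.EQ3
import Pool.Agent.Helper70_REV.HP3
import Pool.Agent.Helper11_REV.GA3
import Pool.Agent.Helper50_REV.TR3
import Pool.Agent.Helper42_REV.LL3
import Pool.Agent.Helper30_REV.PD3
import Pool.Agent.Helper62_REV.VG3
import Pool.Agent.Helper67_REV.VAL3
import Pool.Agent.Helper95_REV.LMM
import Pool.Agent.Helper75_REV.FTL

set_option autoImplicit false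

/-! Composition of the rows of part V3 of squad REV. -/

namespace Pool.Agent.REV.H36

open Pool.Agent.REV

theorem crc3 : CrcStmt := H8.crc
theorem yd3All : Yd3Stmt := H6.yd3 H27.rc3
theorem vd3All : Vd3Stmt := H77V.vd3 yd3All H27.rc3
theorem vm3All : Vm3Stmt := H10.vm3 vd3All yd3All
theorem vn3All : Vn3Stmt := H28.vn3 crc3 vd3All vm3All
theorem vt3All : Vt3Stmt := H76.vt3 vd3All vm3All vn3All
theorem ve3All : Ve3Stmt := H88.ve3 vd3All vm3All vn3All vt3All H89.vp3
theorem vk3All : Vk3Stmt := H60.vk3 vd3All vm3All vn3All H47.vs3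
theorem vq3All : Vq3Stmt := H49.vq3 vd3All vm3All
theorem vl3All : Vl3Stmt := vl3 vd3All vm3All vn3All H47.vs3
theorem va3All : Va3Stmt := H44.va3 vm3All vk3All vq3All vl3All
theorem vx3All : Vx3Stmt := H16.vx3 vm3All vk3All vq3All
theorem vf3All : Vf3Stmt := vf3 vm3All H89.vp3 ve3All vt3All
theorem ll3All : Ll3Stmt := H42.ll3 (H66.eq3 H89.vp3) H70.hp3 H11.ga3 H50.tr3
theorem vg3All : Vg3Stmt := H62.vg3 H89.vp3 H30.pd3 crc3
theorem val3All : Val3Stmt :=
  H67.val3 vm3All vn3All H95.lmm va3All vx3All H43.bs3 vf3All ll3All H75.ftl vg3All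

end Pool.Agent.REV.H36
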