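import Pool.Agent.REV.StmtsA2

set_option autoImplicit false

namespace Pool.Agent.REV.H36

open Set MeasureTheory Pool.Agent.REV

/-- `c ↦ c RA` and `c ↦ c^3 RB` are nondecreasing on `[0,1]` -/
theorem ant_mono (hINT : IntStmt) (hCRC : CrcStmt) (n : ℕ) (hn : 4 ≤ n) (f : ℝ → ℝ) (hf : Adm f) :
    MonotoneOn (fun c : ℝ => c * RA n f c) (Icc 0 1) ∧
      MonotoneOn (fun c : ℝ => c ^ 3 * RB n f c) (Icc 0 1) := by
  obtain ⟨_, hI⟩ := hINT n f hn hf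
  have hn4 : (4 : ℝ) ≤ n := by exact_mod_cast hn
  -- a general comparison
  have key : ∀ (q : ℝ → ℝ → ℝ),
      (∀ c : ℝ, 0 < c → c ≤ 1 → IntervalIntegrable (q c) volume 0 c) →
      (∀ c : ℝ, 0 < c → c ≤ 1 → ∀ x ∈ Icc (0 : ℝ) c, 0 ≤ q c x) →
      (∀ c d : ℝ, 0 < c → c ≤ d → d ≤ 1 → ∀ x ∈ Icc (0 : ℝ) c, q c x ≤ q d x) →
      ∀ c d : ℝ, 0 < c → c ≤ d → d ≤ 1 → ∫ x in (0 : ℝ)..c, q c x ≤ ∫ x in (0 : ℝ)..d, q d x := by
    intro q hqi hq0 hqm c d hc hcd hd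
    have hd0 : 0 < d := lt_of_lt_of_le hc hcd
    have hqd : IntervalIntegrable (q d) volume 0 c := (hqi d hd0 hd).mono_set (by
      rw [uIcc_of_le hc.le, uIcc_of_le hd0.le]
      exact Icc_subset_Icc le_rfl hcd)
    have hqd2 : IntervalIntegrable (q d) volume c d := (hqi d hd0 hd).mono_set (by
      rw [uIcc_of_le hcd, uIcc_of_le hd0.le]
      exact Icc_subset_Icc hc.le le_rfl)
    have h1 : ∫ x in (0 : ℝ)..c, q c x ≤ ∫ x in (0 : ℝ)..c, q d x :=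
      intervalIntegral.integral_mono_on hc.le (hqi c hc (hcd.trans hd)) hqd
        (fun x hx => hqm c d hc hcd hd x hx)
    have h2 : 0 ≤ ∫ x in c..d, q d x :=
      intervalIntegral.integral_nonneg hcd
        (fun x hx => hq0 d hd0 hd x ⟨hc.le.trans hx.1, hx.2⟩)
    have h3 := intervalIntegral.integral_add_adjacent_intervals hqd hqd2
    linarith
  -- integrability after the substitution
  have hsub : ∀ (w : ℝ → ℝ) (c : ℝ), 0 < c → c ≤ 1 →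
      IntervalIntegrable (fun r : ℝ => w r * f (r * c)) volume 0 1 →
      IntervalIntegrable (fun x : ℝ => w (x / c) * f x) volume 0 c := by
    intro w c hc hc1 h
    have h2 := h.comp_mul_left (c := c⁻¹)
    simp only [zero_div, one_div, inv_inv] at h2
    refine h2.congr ?_
    intro x hx
    show w (c⁻¹ * x) * f (c⁻¹ * x * c) = w (x / c) * f x
    have h3 : c⁻¹ * x * c = x := by field_simp
    rw [h3, div_eq_inv_mul]
  have hfc : ∀ c x : ℝ, 0 < c → c ≤ 1 → x ∈ Icc (0 : ℝ) c → 0 ≤ f x := fun c x hc hc1 hx =>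
    hf.nonneg x ⟨hx.1, hx.2.trans hc1⟩
  have hw : ∀ c x : ℝ, 0 < c → x ∈ Icc (0 : ℝ) c → 0 ≤ 1 - x ^ 2 / c ^ 2 := by
    intro c x hc hx
    have : x ^ 2 / c ^ 2 ≤ 1 := by
      rw [div_le_one (by positivity)]
      exact pow_le_pow_left₀ hx.1 hx.2 2
    linarith
  have hww : ∀ c d x : ℝ, 0 < c → c ≤ d → 1 - x ^ 2 / c ^ 2 ≤ 1 - x ^ 2 / d ^ 2 := by
    intro c d x hc hcd
    have : x ^ 2 / d ^ 2 ≤ x ^ 2 / c ^ 2 :=
      div_le_div_of_nonneg_left (sq_nonneg x) (by positivity) (pow_le_pow_left₀ hc.le hcd 2)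
    linarith
  constructor
  · intro c hc d hd hcd
    rcases hc.1.eq_or_lt with h0 | h0
    · simp only [← h0, zero_mul]
      exact mul_nonneg hd.1 ((hI d hd.1 hd.2).2.2.1)
    · show c * RA n f c ≤ d * RA n f d
      rw [(hCRC n f c h0 hc.2).1, (hCRC n f d (lt_of_lt_of_le h0 hcd) hd.2).1]
      apply key (fun c x => (1 - x ^ 2 / c ^ 2) ^ (((n : ℝ) - 2) / 2) * f x) _ _ _ c d h0 hcd hd.2
      · intro c hc hc1
        have h := hsub (fun r => (1 - r ^ 2) ^ (((n : ℝ) - 2) / 2)) c hc hc1 (hI c hc.le hc1).1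
        simpa only [div_pow] using h
      · intro c hc hc1 x hx
        exact mul_nonneg (Real.rpow_nonneg (hw c x hc hx) _) (hfc c x hc hc1 hx)
      · intro c d hc hcd hd1 x hx
        exact mul_le_mul_of_nonneg_right (Real.rpow_le_rpow (hw c x hc hx) (hww c d x hc hcd)
          (by linarith)) (hfc c x hc (hcd.trans hd1) hx)
  · intro c hc d hd hcd
    rcases hc.1.eq_or_lt with h0 | h0
    · have : (0 : ℝ) ^ 3 = 0 := by norm_num
      simp only [← h0, this, zero_mul]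
      exact mul_nonneg (pow_nonneg hd.1 3) ((hI d hd.1 hd.2).2.2.2)
    · show c ^ 3 * RB n f c ≤ d ^ 3 * RB n f d
      rw [(hCRC n f c h0 hc.2).2, (hCRC n f d (lt_of_lt_of_le h0 hcd) hd.2).2]
      apply key (fun c x => x ^ 2 * (1 - x ^ 2 / c ^ 2) ^ (((n : ℝ) - 4) / 2) * f x) _ _ _ c d h0
        hcd hd.2
      · intro c hc hc1
        have h := hsub (fun r => r ^ 2 * (1 - r ^ 2) ^ (((n : ℝ) - 4) / 2)) c hc hc1
          (hI c hc.le hc1).2.1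
        have h2 := h.const_mul (c ^ 2)
        refine h2.congr ?_
        intro x _
        show c ^ 2 * ((x / c) ^ 2 * (1 - (x / c) ^ 2) ^ (((n : ℝ) - 4) / 2) * f x) =
          x ^ 2 * (1 - x ^ 2 / c ^ 2) ^ (((n : ℝ) - 4) / 2) * f x
        rw [div_pow]
        have : c ^ 2 * (x ^ 2 / c ^ 2) = x ^ 2 := by field_simp
        rw [← this]
        have h5 : c ^ 2 * (x ^ 2 / c ^ 2) / c ^ 2 = x ^ 2 / c ^ 2 := by rw [this]
        rw [h5]
        ring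
      · intro c hc hc1 x hx
        exact mul_nonneg (mul_nonneg (sq_nonneg x) (Real.rpow_nonneg (hw c x hc hx) _))
          (hfc c x hc hc1 hx)
      · intro c d hc hcd hd1 x hx
        exact mul_le_mul_of_nonneg_right (mul_le_mul_of_nonneg_left
          (Real.rpow_le_rpow (hw c x hc hx) (hww c d x hc hcd) (by linarith)) (sq_nonneg x))
          (hfc c x hc (hcd.trans hd1) hx)

theorem ant (hINT : IntStmt) (hCRC : CrcStmt) : AntStmt := by
  intro n i C1 C2 f hn hi hin hC1 hC2 hf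
  obtain ⟨hmA, hmB⟩ := ant_mono hINT hCRC n hn f hf
  obtain ⟨_, hI⟩ := hINT n f hn hf
  have hs : ∀ t ∈ Icc (0 : ℝ) 1, Real.sqrt (1 - t ^ 2) ∈ Icc (0 : ℝ) 1 := fun t _ =>
    ⟨Real.sqrt_nonneg _, Real.sqrt_le_one.2 (by nlinarith [sq_nonneg t])⟩
  have hrep : ∀ t ∈ Icc (0 : ℝ) 1, (1 - t ^ 2) ^ (((i : ℝ) + 2) / 2) * TT n i C1 C2 f t =
      C1 * (Real.sqrt (1 - t ^ 2) ^ 2 * (Real.sqrt (1 - t ^ 2) * RA n f (Real.sqrt (1 - t ^ 2))) ^ i)
      + C2 * ((Real.sqrt (1 - t ^ 2) ^ 3 * RB n f (Real.sqrt (1 - t ^ 2))) *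
        (Real.sqrt (1 - t ^ 2) * RA n f (Real.sqrt (1 - t ^ 2))) ^ (i - 1)) := by
    intro t ht
    have h0 : 0 ≤ 1 - t ^ 2 := by nlinarith [ht.1, ht.2]
    have h1 : (1 - t ^ 2) ^ (((i : ℝ) + 2) / 2) = Real.sqrt (1 - t ^ 2) ^ (i + 2) := by
      rw [Real.sqrt_eq_rpow, ← Real.rpow_natCast ((1 - t ^ 2) ^ (1 / 2 : ℝ)) (i + 2),
        ← Real.rpow_mul h0]
      congr 1
      push_cast
      ring
    obtain ⟨j, rfl⟩ : ∃ j, i = j + 1 := ⟨i - 1, by omega⟩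
    rw [h1]
    unfold TT
    simp only [Nat.add_sub_cancel]
    ring
  have hfirst : AntitoneOn (fun t : ℝ => (1 - t ^ 2) ^ (((i : ℝ) + 2) / 2) * TT n i C1 C2 f t)
      (Icc 0 1) := by
    intro t ht u hu htu
    show (1 - u ^ 2) ^ (((i : ℝ) + 2) / 2) * TT n i C1 C2 f u ≤
      (1 - t ^ 2) ^ (((i : ℝ) + 2) / 2) * TT n i C1 C2 f t
    rw [hrep t ht, hrep u hu]
    have hcu := hs u hu
    have hct := hs t ht
    have hle : Real.sqrt (1 - u ^ 2) ≤ Real.sqrt (1 - t ^ 2) :=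
      Real.sqrt_le_sqrt (by nlinarith [ht.1, hu.1])
    have hA := hmA hcu hct hle
    have hB := hmB hcu hct hle
    simp only at hA hB
    have hA0 : 0 ≤ Real.sqrt (1 - u ^ 2) * RA n f (Real.sqrt (1 - u ^ 2)) :=
      mul_nonneg hcu.1 (hI _ hcu.1 hcu.2).2.2.1
    have hB0 : 0 ≤ Real.sqrt (1 - u ^ 2) ^ 3 * RB n f (Real.sqrt (1 - u ^ 2)) :=
      mul_nonneg (pow_nonneg hcu.1 3) (hI _ hcu.1 hcu.2).2.2.2
    have hp : ∀ k : ℕ, (Real.sqrt (1 - u ^ 2) * RA n f (Real.sqrt (1 - u ^ 2))) ^ k ≤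
        (Real.sqrt (1 - t ^ 2) * RA n f (Real.sqrt (1 - t ^ 2))) ^ k := fun k =>
      pow_le_pow_left₀ hA0 hA k
    refine add_le_add (mul_le_mul_of_nonneg_left ?_ hC1) (mul_le_mul_of_nonneg_left ?_ hC2)
    · exact mul_le_mul (pow_le_pow_left₀ hcu.1 hle 2) (hp i) (pow_nonneg hA0 _) (sq_nonneg _)
    · exact mul_le_mul hB (hp (i - 1)) (pow_nonneg hA0 _) (hB0.trans hB)
  refine ⟨hfirst, ?_⟩
  have hin' : (i : ℝ) + 1 ≤ n := by exact_mod_cast hin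
  have hEl : ∀ t ∈ Icc (0 : ℝ) 1, El n 0 (TT n i C1 C2 f) t =
      (1 - t ^ 2) ^ (((n : ℝ) - 1 - i) / 2) *
        ((1 - t ^ 2) ^ (((i : ℝ) + 2) / 2) * TT n i C1 C2 f t) := by
    intro t ht
    have h0 : 0 ≤ 1 - t ^ 2 := by nlinarith [ht.1, ht.2]
    unfold El
    rw [← mul_assoc]
    congr 1
    rw [show (1 + (0 - 1) * t ^ 2 : ℝ) = 1 - t ^ 2 by ring]
    rcases h0.eq_or_lt with h | h
    · rw [← h, Real.zero_rpow (by positivity), Real.zero_rpow (by positivity : ((i : ℝ) + 2) / 2 ≠ 0),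
        mul_zero]
    · rw [← Real.rpow_add h]
      congr 1
      ring
  have hTT0 : ∀ t ∈ Icc (0 : ℝ) 1, 0 ≤ (1 - t ^ 2) ^ (((i : ℝ) + 2) / 2) * TT n i C1 C2 f t := by
    intro t ht
    have h0 : 0 ≤ 1 - t ^ 2 := by nlinarith [ht.1, ht.2]
    have hct := hs t ht
    refine mul_nonneg (Real.rpow_nonneg h0 _) ?_
    unfold TT
    have h1 := (hI _ hct.1 hct.2).2.2.1
    have h2 := (hI _ hct.1 hct.2).2.2.2
    positivity
  intro t ht u hu htu
  rw [hEl t ht, hEl u hu]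
  have h0u : 0 ≤ 1 - u ^ 2 := by nlinarith [hu.1, hu.2]
  have h0t : 0 ≤ 1 - t ^ 2 := by nlinarith [ht.1, ht.2]
  refine mul_le_mul ?_ (hfirst ht hu htu) (hTT0 u hu) (Real.rpow_nonneg h0t _)
  exact Real.rpow_le_rpow h0u (by nlinarith [ht.1, hu.1]) (by linarith)

end Pool.Agent.REV.H36
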