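import Pool.Agent.REV.StmtsP3

set_option autoImplicit false

namespace Pool.Agent.REV.H36

open Set MeasureTheory Filter
open scoped Topology

theorem hlx_sq {x z : ℝ} (hx : x ∈ Icc (0 : ℝ) 1) (hz : z ∈ Icc (0 : ℝ) 1) :
    |x ^ 2 - z ^ 2| ≤ 1 := by
  rw [abs_le]
  have h1 := hx.1
  have h2 := hx.2
  have h3 := hz.1
  have h4 := hz.2
  constructor <;> nlinarith

theorem hlx (hst : HstStmt) : HlxStmt := by
  intro C f hf hC
  obtain ⟨M, hM⟩ := isCompact_Icc.exists_bound_of_continuousOn hf.cont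
  have hM0 : 0 ≤ M := (norm_nonneg _).trans (hM 0 ⟨le_rfl, zero_le_one⟩)
  have h0 : ∀ x ∈ Icc (0 : ℝ) 1, ∀ z ∈ Icc (0 : ℝ) 1,
      |f x - f z| ≤ (2 * M) * |x ^ 2 - z ^ 2| ^ (0 : ℝ) := by
    intro x hx z hz
    rw [Real.rpow_zero, mul_one]
    have h1 := abs_le.1 (hM x hx)
    have h2 := abs_le.1 (hM z hz)
    rw [abs_le]
    constructor <;> linarith [h1.1, h1.2, h2.1, h2.2]
  obtain ⟨L1, hL1, h1⟩ := hst 0 (1 / 2) C (2 * M) f (Or.inl ⟨rfl, rfl⟩) hf hC (by positivity) h0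
  have h1' : ∀ x ∈ Icc (0 : ℝ) 1, ∀ z ∈ Icc (0 : ℝ) 1,
      |f x - f z| ≤ L1 * |x ^ 2 - z ^ 2| ^ (1 / 4 : ℝ) := by
    intro x hx z hz
    refine (h1 x hx z hz).trans (mul_le_mul_of_nonneg_left ?_ hL1)
    rcases eq_or_lt_of_le (abs_nonneg (x ^ 2 - z ^ 2)) with he | he
    · rw [← he, Real.zero_rpow (by norm_num), Real.zero_rpow (by norm_num)]
    · exact Real.rpow_le_rpow_of_exponent_ge he (hlx_sq hx hz) (by norm_num)
  obtain ⟨L2, hL2, h2⟩ := hst (1 / 4) (3 / 4) C L1 f (Or.inr (Or.inl ⟨rfl, rfl⟩)) hf hC hL1 h1'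
  obtain ⟨L3, hL3, h3⟩ := hst (3 / 4) 1 C L2 f (Or.inr (Or.inr ⟨rfl, rfl⟩)) hf hC hL2 h2
  refine ⟨L3, hL3, fun x hx z hz => ?_⟩
  have := h3 x hx z hz
  rwa [Real.rpow_one] at this

end Pool.Agent.REV.H36
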