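import Pool.Agent.REV.StmtsA2

set_option autoImplicit false

namespace Pool.Agent.REV.H36

open Set MeasureTheory Pool.Agent.REV

theorem svn (hSTG : StgStmt) (hANT : AntStmt) (hLOW : LowStmt) (hSTA : StaStmt) : SvnStmt := by
  intro n i C1 C2 κ η hn hi hi2 hC1 hC2 hκ hη
  obtain ⟨M, hM0, hM⟩ := hSTG n i C1 C2 κ η hn hi hi2 hC1 hC2 hκ hη
  obtain ⟨B, hB0, hB⟩ := hLOW n i C1 C2 κ η M hn hi hi2 hC1 hC2 hκ hη hM0
  refine ⟨B, hB0, ?_⟩
  intro σ F hcls hstep
  obtain ⟨h5, h6⟩ := hM σ F (fun k hk => hcls k (by omega)) (fun k hk => hstep k (by omega))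
  -- congruence: El on [0,1]
  have hEl : ∀ (g : ℝ) (k : ℕ), k < 7 → ∀ t ∈ Icc (0 : ℝ) 1,
      El n g (F (k + 1)) t = σ k * El n g (TT n i C1 C2 (F k)) t := by
    intro g k hk t ht
    unfold El
    rw [(hstep k hk).2 t ht]
    ring
  have hanti : ∀ k : ℕ, k < 7 → AntitoneOn (El n 0 (F (k + 1))) (Icc 0 1) := by
    intro k hk a ha b hb hab
    rw [hEl 0 k hk a ha, hEl 0 k hk b hb]
    exact mul_le_mul_of_nonneg_left
      ((hANT n i C1 C2 (F k) hn hi (by omega) hC1.le hC2 (hcls k (by omega)).adm).2 ha hb hab)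
      (hstep k hk).1
  have hlow6 : Low n (1 + B) (F 6) := by
    intro a ha b hb hab
    rw [hEl (1 + B) 5 (by omega) a ha, hEl (1 + B) 5 (by omega) b hb]
    exact mul_le_mul_of_nonneg_left
      (hB (F 5) (hcls 5 (by omega)) h5 (hanti 4 (by omega)) ha hb hab) (hstep 5 (by omega)).1
  have hlow7 : Low n (1 + B) (F 7) := by
    intro a ha b hb hab
    rw [hEl (1 + B) 6 (by omega) a ha, hEl (1 + B) 6 (by omega) b hb]
    exact mul_le_mul_of_nonneg_left
      (hB (F 6) (hcls 6 (by omega)) h6 (hanti 5 (by omega)) ha hb hab) (hstep 6 (by omega)).1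
  refine ⟨hlow7, ?_⟩
  -- the upper comparison
  have hn0 : (0 : ℝ) < (n : ℝ) + 1 := by positivity
  set lam : ℝ := ((i : ℝ) + 2) / ((n : ℝ) + 1) with hlam
  have hlam0 : 0 ≤ lam := by positivity
  have hlam1 : lam ≤ 1 := by
    rw [hlam, div_le_one hn0]
    have : (i : ℝ) + 2 ≤ n := by exact_mod_cast hi2
    linarith
  have hsta := hSTA n i C1 C2 B (F 6) hn hi (by omega) hC1.le hC2 hB0
    (hcls 6 (by omega)).adm.nonneg hlow6
  set b : ℝ := 1 / (1 + lam * B) with hb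
  set a : ℝ := 1 / (1 + B) with ha'
  have hpos1 : 0 < 1 + lam * B := by positivity
  have hpos2 : 0 < 1 + B := by linarith
  have hlB : lam * B ≤ B := by nlinarith
  have hab : a ≤ b := by
    rw [ha', hb]
    exact one_div_le_one_div_of_le hpos1 (by linarith)
  have ha0 : 0 < a := by positivity
  have hb0 : 0 < b := by positivity
  have hb1 : b ≤ 1 := by
    rw [hb, div_le_one hpos1]
    nlinarith [mul_nonneg hlam0 hB0]
  have hppos : ∀ g : ℝ, 0 < g → g ≤ 1 → ∀ t ∈ Icc (0 : ℝ) 1, 0 < 1 + (g - 1) * t ^ 2 := by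
    intro g hg hg1 t ht
    have h1 : t ^ 2 ≤ 1 := by nlinarith [ht.1, ht.2]
    nlinarith [mul_nonneg (sub_nonneg.2 hg1) (sub_nonneg.2 h1), sq_nonneg t]
  have hF7 : ∀ t ∈ Icc (0 : ℝ) 1, 0 ≤ F 7 t := (hcls 7 le_rfl).adm.nonneg
  have key : ∀ t ∈ Icc (0 : ℝ) 1, El n a (F 7) t =
      ((1 + (a - 1) * t ^ 2) / (1 + (b - 1) * t ^ 2)) ^ (((n : ℝ) + 1) / 2) * El n b (F 7) t := by
    intro t ht
    have h1 := hppos a ha0 (hab.trans hb1) t ht
    have h2 := hppos b hb0 hb1 t ht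
    unfold El
    rw [Real.div_rpow h1.le h2.le]
    have h3 : (1 + (b - 1) * t ^ 2) ^ (((n : ℝ) + 1) / 2) ≠ 0 := (Real.rpow_pos_of_pos h2 _).ne'
    rw [div_mul_eq_mul_div, eq_div_iff h3]
    ring
  have hupp : AntitoneOn (El n b (F 7)) (Icc 0 1) := by
    intro x hx y hy hxy
    rw [hEl b 6 (by omega) x hx, hEl b 6 (by omega) y hy]
    exact mul_le_mul_of_nonneg_left (hsta hx hy hxy) (hstep 6 (by omega)).1
  intro x hx y hy hxy
  rw [key x hx, key y hy]
  have h1x := hppos a ha0 (hab.trans hb1) x hx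
  have h2x := hppos b hb0 hb1 x hx
  have h1y := hppos a ha0 (hab.trans hb1) y hy
  have h2y := hppos b hb0 hb1 y hy
  have hsq : x ^ 2 ≤ y ^ 2 := by nlinarith [hx.1, hy.1]
  apply mul_le_mul
  · apply Real.rpow_le_rpow (by positivity) _ (by positivity)
    rw [div_le_div_iff₀ h2y h2x]
    nlinarith [mul_nonneg (sub_nonneg.2 hab) (sub_nonneg.2 hsq)]
  · exact hupp hx hy hxy
  · unfold El
    exact mul_nonneg (Real.rpow_nonneg h2y.le _) (hF7 y hy)
  · positivity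

end Pool.Agent.REV.H36
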