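import Pool.Agent.Helper65_REV.GEN
import Pool.Agent.Helper65_REV.TAU
import Pool.Agent.Helper65_REV.CHV
import Pool.Agent.Helper5_REV.CVA
import Pool.Agent.Helper69_REV.MRA
import Pool.Agent.Helper16_REV.LWA
import Pool.Agent.Helper65_REV.STA
import Pool.Agent.Helper54_REV.INT
import Pool.Agent.Helper8_REV.CRC
import Pool.Agent.Helper3_REV.MBD
import Pool.Agent.Helper32_REV.YLO
import Pool.Agent.Helper80_REV.FAC
import Pool.Agent.Helper12_REV.PWI
import Pool.Agent.Helper65_REV.RAB
import Pool.Agent.Helper76_REV.RBL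
import Pool.Agent.Helper98_REV.RBS
import Pool.Agent.Helper3_REV.SGA
import Pool.Agent.Helper17_REV.SGB
import Pool.Agent.Helper27_REV.STG
import Pool.Agent.Helper36_REV.ANT
import Pool.Agent.Helper62_REV.MON
import Pool.Agent.Helper69_REV.LPA
import Pool.Agent.Helper17_REV.LPB
import Pool.Agent.Helper95_REV.LOC
import Pool.Agent.Helper89_REV.GLU
import Pool.Agent.Helper23_REV.LOW
import Pool.Agent.Helper36_REV.SVN
import Pool.Agent.Helper62_REV.MXL
import Pool.Agent.Helper42_REV.CRA
import Pool.Agent.Helper77_REV.YDR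
import Pool.Agent.Helper50_REV.RBC
import Pool.Agent.Helper52_REV.VDR
import Pool.Agent.Helper70_REV.VLM
import Pool.Agent.Helper96_REV.VNE
import Pool.Agent.Helper80_REV.VTA
import Pool.Agent.Helper66_REV.VLI
import Pool.Agent.Helper5_REV.VPS
import Pool.Agent.Helper40_REV.VEO
import Pool.Agent.Helper60_REV.VSW
import Pool.Agent.Helper77_REV.VKU
import Pool.Agent.Helper27_REV.VKS
import Pool.Agent.Helper23_REV.VKL
import Pool.Agent.Helper95_REV.LMM
import Pool.Agent.Helper44_REV.VAB
import Pool.Agent.Helper89_REV.VST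
import Pool.Agent.Helper26_REV.BSV
import Pool.Agent.Helper62_REV.VLL
import Pool.Agent.Helper16_REV.VEL
import Pool.Agent.Helper75_REV.FTL
import Pool.Agent.Helper11_REV.VPD
import Pool.Agent.Helper24_REV.VGF
import Pool.Agent.Helper32_REV.VAL

set_option autoImplicit false

/-! Composition of the rows of parts A2 and V of squad REV. -/

namespace Pool.Agent.REV.H36

open Pool.Agent.REV

theorem cvaAll : CvaStmt := H5.cva H65.chv H65.tau
theorem mraAll : MraStmt := H69.mra H65.tau
theorem staAll : StaStmt := H65.sta cvaAll H65.cvb mraAll H16.lwa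
theorem intAll : IntStmt := H54.int
theorem crcAll : CrcStmt := H8.crc
theorem antAll : AntStmt := ant intAll crcAll
theorem lpaAll : LpaStmt := H69.lpa intAll crcAll
theorem lpbAll : LpbStmt := H17.lpb intAll crcAll H12.pwi
theorem yloAll : YloStmt := H32.ylo intAll crcAll
theorem rblAll : RblStmt := H76.rbl intAll H12.pwi
theorem stgAll : StgStmt :=
  H27.stg (H80.fac intAll yloAll) (H3.sga intAll (H3.mbd intAll crcAll) rblAll)
    (H17.sgb intAll (H65.rab intAll H12.pwi) rblAll (H98.rbs intAll H12.pwi))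
theorem lowAll : LowStmt :=
  H23.low intAll yloAll (H62.mon H65.cvag H65.cvbg H65.mrag)
    (H95.loc intAll crcAll antAll lpaAll lpbAll) H89.glu
theorem svnAll : SvnStmt := svn stgAll antAll lowAll staAll

theorem ydrAll : YdrStmt := H77.ydr H62.mxl H42.cra
theorem rbcAll : RbcStmt := H50.rbc H42.cra
theorem vdrAll : VdrStmt := H52.vdr ydrAll rbcAll
theorem vlmAll : VlmStmt := H70.vlm vdrAll ydrAll
theorem vneAll : VneStmt := H96.vne crcAll vdrAll vlmAll
theorem vtaAll : VtaStmt := H80.vta vdrAll vlmAll vneAll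
theorem vliAll : VliStmt := H66.vli vdrAll vlmAll vneAll vtaAll
theorem veoAll : VeoStmt := H40.veo vdrAll vlmAll vneAll vtaAll H5.vps
theorem vkuAll : VkuStmt := H77.vku vdrAll vlmAll vneAll H60.vsw
theorem vksAll : VksStmt := H27.vks vdrAll vlmAll
theorem vklAll : VklStmt := H23.vkl vdrAll vlmAll vneAll H60.vsw
theorem vabAll : VabStmt := H44.vab vlmAll vkuAll vksAll vklAll
theorem vstAll : VstStmt := H89.vst vlmAll vkuAll vksAll
theorem vllAll : VllStmt := H62.vll vlmAll vliAll
theorem velAll : VelStmt := H16.vel vlmAll H5.vps veoAll vtaAll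
theorem vgfAll : VgfStmt := H24.vgf H5.vps H11.vpd crcAll
theorem valAll : ValStmt :=
  H32.val vlmAll vneAll H95.lmm vabAll vstAll H26.bsv vllAll velAll H75.ftl vgfAll

end Pool.Agent.REV.H36
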